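import Pool.Agent.Helper5.Iso.Defs

/-!
# Block 2 of MP_35e092_an : changing one far coefficient moves two zeros
-/

namespace Pool.Agent.Iso

open Filter Topology

theorem summable_ev {a : ℕ → ℝ} (ha : IsB a) {x : ℝ} (hx : |x| < 1) :
    Summable (fun n => a n * x ^ n) := by
  refine Summable.of_norm_bounded (g := fun n => |x| ^ n)
    (summable_geometric_of_lt_one (abs_nonneg x) hx) ?_
  intro n
  rw [Real.norm_eq_abs, abs_mul, abs_pow]
  calc |a n| * |x| ^ n ≤ 1 * |x| ^ n := by
        gcongr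
        exact ha.abs_le n
    _ = |x| ^ n := one_mul _

theorem hasDerivAt_ev {a : ℕ → ℝ} (ha : IsB a) {x : ℝ} (hx : |x| < 1) :
    HasDerivAt (ev a) (∑' n : ℕ, a n * ((n : ℝ) * x ^ (n - 1))) x := by
  obtain ⟨r, hr1, hr2⟩ := exists_between hx
  have hr0 : 0 ≤ r := (abs_nonneg x).trans hr1.le
  have hu : Summable (fun n : ℕ => (n : ℝ) * r ^ (n - 1)) := by
    rw [← summable_nat_add_iff 1]
    have h1 : Summable (fun n : ℕ => (n : ℝ) ^ 1 * r ^ n) :=
      summable_pow_mul_geometric_of_norm_lt_one 1 (by rw [Real.norm_eq_abs, abs_of_nonneg hr0]; exact hr2)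
    have h2 : Summable (fun n : ℕ => r ^ n) := summable_geometric_of_lt_one hr0 hr2
    refine (h1.add h2).congr ?_
    intro n
    rw [show n + 1 - 1 = n from rfl]
    push_cast
    ring
  have key := hasDerivAt_tsum_of_isPreconnected (𝕜 := ℝ) (F := ℝ)
    (g := fun (n : ℕ) (y : ℝ) => a n * y ^ n)
    (g' := fun (n : ℕ) (y : ℝ) => a n * ((n : ℝ) * y ^ (n - 1))) hu
    (Metric.isOpen_ball (x := (0 : ℝ)) (ε := r)) (convex_ball (0 : ℝ) r).isPreconnected
    (fun n y _ => (hasDerivAt_pow n y).const_mul (a n)) ?_ (y₀ := x) (y := x) ?_ ?_ ?_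
  · exact key
  · intro n y hy
    have hy' : |y| < r := by simpa [Metric.mem_ball, dist_zero_right] using hy
    rw [Real.norm_eq_abs, abs_mul, abs_mul, abs_pow, Nat.abs_cast]
    calc |a n| * ((n : ℝ) * |y| ^ (n - 1)) ≤ 1 * ((n : ℝ) * r ^ (n - 1)) := by
          gcongr
          exact ha.abs_le n
      _ = _ := one_mul _
  · simpa [Metric.mem_ball, dist_zero_right] using hr1
  · exact summable_ev ha hx
  · simpa [Metric.mem_ball, dist_zero_right] using hr1

theorem dv_eq {a : ℕ → ℝ} (x : ℝ) :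
    dv a x = x * ∑' n : ℕ, a n * ((n : ℝ) * x ^ (n - 1)) := by
  unfold dv
  rw [← tsum_mul_left]
  refine tsum_congr ?_
  intro n
  rcases n with _ | n
  · simp
  · rw [Nat.add_sub_cancel, pow_succ]
    ring

theorem ev_zero {a : ℕ → ℝ} (ha : IsB a) : ev a 0 = 1 := by
  unfold ev
  rw [tsum_eq_single 0]
  · simp [ha.1]
  · intro n hn
    simp [hn]

theorem continuousAt_ev {a : ℕ → ℝ} (ha : IsB a) {x : ℝ} (hx : |x| < 1) :
    ContinuousAt (ev a) x := (hasDerivAt_ev ha hx).continuousAt

/-- sign change at a simple zero -/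
theorem exists_sign_change {a : ℕ → ℝ} (ha : IsB a) {z : ℝ} (hz : |z| < 1)
    (hfz : ev a z = 0) (hD : dv a z ≠ 0) {ε : ℝ} (hε : 0 < ε) :
    ∃ u v : ℝ, u < z ∧ z < v ∧ |u - z| < ε ∧ |v - z| < ε ∧ |u| < 1 ∧ |v| < 1 ∧
      ev a u * ev a v < 0 := by
  have hd := hasDerivAt_ev ha hz
  set d := ∑' n : ℕ, a n * ((n : ℝ) * z ^ (n - 1)) with hdd
  have hd0 : d ≠ 0 := by
    intro h
    apply hD
    rw [dv_eq, ← hdd, h, mul_zero]
  have hslope := hasDerivAt_iff_tendsto_slope.1 hd
  -- slope * d > 0 near z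
  have hpos : ∀ᶠ y in 𝓝[≠] z, 0 < slope (ev a) z y * d := by
    have h1 : Tendsto (fun y => slope (ev a) z y * d) (𝓝[≠] z) (𝓝 (d * d)) :=
      hslope.mul_const d
    exact h1.eventually (lt_mem_nhds (mul_self_pos.2 hd0))
  rw [eventually_nhdsWithin_iff, Metric.eventually_nhds_iff] at hpos
  obtain ⟨δ, hδ, hδ'⟩ := hpos
  -- choose step
  set t := min (min δ ε) (1 - |z|) / 2 with ht
  have hz1 : 0 < 1 - |z| := by linarith
  have hm : 0 < min (min δ ε) (1 - |z|) := lt_min (lt_min hδ hε) hz1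
  have ht0 : 0 < t := by positivity
  have htδ : t < δ := by
    have : min (min δ ε) (1 - |z|) ≤ δ := (min_le_left _ _).trans (min_le_left _ _)
    linarith
  have htε : t < ε := by
    have : min (min δ ε) (1 - |z|) ≤ ε := (min_le_left _ _).trans (min_le_right _ _)
    linarith
  have htz : t < 1 - |z| := by
    have : min (min δ ε) (1 - |z|) ≤ 1 - |z| := min_le_right _ _
    linarith
  have hs1 := hδ' (y := z - t) (by rw [Real.dist_eq]; rw [show z - t - z = -t by ring, abs_neg, abs_of_pos ht0]; exact htδ)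
    (by simp [ht0.ne'])
  have hs2 := hδ' (y := z + t) (by rw [Real.dist_eq]; rw [show z + t - z = t by ring, abs_of_pos ht0]; exact htδ)
    (by simp [ht0.ne'])
  rw [slope_def_field, hfz, sub_zero] at hs1 hs2
  rw [show z - t - z = -t by ring] at hs1
  rw [show z + t - z = t by ring] at hs2
  refine ⟨z - t, z + t, by linarith, by linarith, ?_, ?_, ?_, ?_, ?_⟩
  · rw [show z - t - z = -t by ring, abs_neg, abs_of_pos ht0]; exact htε
  · rw [show z + t - z = t by ring, abs_of_pos ht0]; exact htε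
  · calc |z - t| ≤ |z| + |t| := abs_sub _ _
      _ < 1 := by rw [abs_of_pos ht0]; linarith
  · calc |z + t| ≤ |z| + |t| := abs_add_le _ _
      _ < 1 := by rw [abs_of_pos ht0]; linarith
  · have h1 : ev a (z - t) * d < 0 := by
      have : ev a (z - t) / (-t) * d = -(ev a (z - t) * d / t) := by
        field_simp
      rw [this] at hs1
      have h3 : ev a (z - t) * d / t < 0 := by linarith
      by_contra hc
      push Not at hc
      have : 0 ≤ ev a (z - t) * d / t := by positivity
      linarith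
    have h2 : 0 < ev a (z + t) * d := by
      have : ev a (z + t) / t * d = ev a (z + t) * d / t := by ring
      rw [this] at hs2
      exact (div_pos_iff_of_pos_right ht0).1 hs2
    have h3 : (ev a (z - t) * ev a (z + t)) * (d * d) < 0 := by
      have := mul_neg_of_neg_of_pos h1 h2
      nlinarith [this]
    by_contra hc
    push Not at hc
    have := mul_nonneg hc (mul_self_nonneg d)
    linarith

/-- changing one coefficient -/
theorem ev_update {a : ℕ → ℝ} (ha : IsB a) {x : ℝ} (hx : |x| < 1) (n : ℕ) (η : ℝ) :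
    ev (Function.update a n (a n + η)) x = ev a x + η * x ^ n := by
  unfold ev
  have h1 : (fun m => Function.update a n (a n + η) m * x ^ m) =
      fun m => a m * x ^ m + (if m = n then η * x ^ n else 0) := by
    funext m
    by_cases h : m = n
    · subst h
      simp
      ring
    · simp [h]
  rw [h1, Summable.tsum_add (summable_ev ha hx) (summable_of_ne_finset_zero (s := {n}) ?_),
    tsum_ite_eq]
  intro m hm
  simp at hm
  simp [hm]

theorem isB_update {a : ℕ → ℝ} (ha : IsB a) {n : ℕ} (hn : 1 ≤ n) {η : ℝ}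
    (hη : η = 1 ∨ η = -1) (hne : a n ≠ η) : IsB (Function.update a n (a n + η)) := by
  refine ⟨?_, ?_⟩
  · rw [Function.update_of_ne (by omega)]
    exact ha.1
  · intro m
    by_cases h : m = n
    · subst h
      rw [Function.update_self]
      rcases ha.2 m with h | h | h <;> rcases hη with h' | h'
      · right; left; rw [h, h']; norm_num
      · exact absurd (h.trans h'.symm) hne
      · right; right; rw [h, h']; norm_num
      · left; rw [h, h']; norm_num
      · exact absurd (h.trans h'.symm) hne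
      · right; left; rw [h, h']; norm_num
    · rw [Function.update_of_ne h]
      exact ha.2 m

/-- intermediate value theorem between two points of `(-1,1)` -/
theorem exists_zero_between {b : ℕ → ℝ} (hb : IsB b) {u v : ℝ} (hu : |u| < 1) (hv : |v| < 1)
    (h : ev b u * ev b v < 0) : ∃ z ∈ Set.uIcc u v, ev b z = 0 := by
  have hc : ContinuousOn (ev b) (Set.uIcc u v) := by
    intro x hx
    refine (continuousAt_ev hb ?_).continuousWithinAt
    rw [abs_lt] at hu hv ⊢
    rw [Set.mem_uIcc] at hx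
    rcases hx with h | h <;> constructor <;> linarith [h.1, h.2]
  have h0 : (0 : ℝ) ∈ Set.uIcc (ev b u) (ev b v) := by
    rw [Set.mem_uIcc]
    rcases mul_neg_iff.1 h with h | h
    · right; exact ⟨h.2.le, h.1.le⟩
    · left; exact ⟨h.1.le, h.2.le⟩
  obtain ⟨z, hz, hz'⟩ := intermediate_value_uIcc hc h0
  exact ⟨z, hz, hz'⟩

theorem uIcc_abs_sub {u v z c : ℝ} {ε : ℝ} (hu : |u - c| < ε) (hv : |v - c| < ε)
    (hz : z ∈ Set.uIcc u v) : |z - c| < ε := by
  rw [abs_lt] at *
  rw [Set.mem_uIcc] at hz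
  rcases hz with h | h <;> constructor <;> linarith [h.1, h.2]

theorem uIcc_abs {u v z : ℝ} {ε : ℝ} (hu : |u| < ε) (hv : |v| < ε)
    (hz : z ∈ Set.uIcc u v) : |z| < ε := by
  rw [abs_lt] at *
  rw [Set.mem_uIcc] at hz
  rcases hz with h | h <;> constructor <;> linarith [h.1, h.2]

theorem eventually_small {x c : ℝ} (hx : |x| < 1) (hc : c ≠ 0) :
    ∀ᶠ n : ℕ in atTop, |x| ^ n < |c| := by
  have := tendsto_pow_atTop_nhds_zero_of_lt_one (abs_nonneg x) hx
  exact this.eventually (gt_mem_nhds (abs_pos.2 hc))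

/-- a product stays negative after small changes -/
theorem mul_neg_of_close {p q e f : ℝ} (h : p * q < 0) (he : |e| < |p|) (hf : |f| < |q|) :
    (p + e) * (q + f) < 0 := by
  rcases mul_neg_iff.1 h with ⟨h1, h2⟩ | ⟨h1, h2⟩
  · rw [abs_of_pos h1] at he
    rw [abs_of_neg h2] at hf
    rw [abs_lt] at he hf
    exact mul_neg_of_pos_of_neg (by linarith [he.1]) (by linarith [hf.2])
  · rw [abs_of_neg h1] at he
    rw [abs_of_pos h2] at hf
    rw [abs_lt] at he hf
    exact mul_neg_of_neg_of_pos (by linarith [he.2]) (by linarith [hf.1])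

theorem sign_stable {a : ℕ → ℝ} (ha : IsB a) {u v : ℝ} (hu : |u| < 1) (hv : |v| < 1)
    (h : ev a u * ev a v < 0) {n : ℕ} (h1 : |u| ^ n < |ev a u|) (h2 : |v| ^ n < |ev a v|)
    {η : ℝ} (hη : η = 1 ∨ η = -1) :
    ev (Function.update a n (a n + η)) u * ev (Function.update a n (a n + η)) v < 0 := by
  rw [ev_update ha hu, ev_update ha hv]
  have hη' : |η| = 1 := by rcases hη with h | h <;> rw [h] <;> simp
  apply mul_neg_of_close h
  · rw [abs_mul, hη', one_mul, abs_pow]; exact h1
  · rw [abs_mul, hη', one_mul, abs_pow]; exact h2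

/-- a power series in the class is not locally zero -/
theorem exists_ne_zero_near {a : ℕ → ℝ} (ha : IsB a) {w : ℝ} (hw : |w| < 1) {ε : ℝ}
    (hε : 0 < ε) : ∃ s : ℝ, |s - w| < ε ∧ |s| < 1 ∧ ev a s ≠ 0 := by
  by_contra hcon
  push Not at hcon
  -- analyticity
  have hdiff : ∀ x : ℂ, ‖x‖ < 1 → Summable (fun n => (a n : ℂ) * x ^ n) := by
    intro x hx
    refine Summable.of_norm_bounded (g := fun n => ‖x‖ ^ n)
      (summable_geometric_of_lt_one (norm_nonneg x) hx) ?_
    intro n
    rw [norm_mul, norm_pow, Complex.norm_real, Real.norm_eq_abs]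
    calc |a n| * ‖x‖ ^ n ≤ 1 * ‖x‖ ^ n := by
          gcongr
          exact ha.abs_le n
      _ = _ := one_mul _
  let F : ℂ → ℂ := fun x => ∑' n : ℕ, (a n : ℂ) * x ^ n
  have hF : AnalyticOnNhd ℂ F (Metric.ball 0 1) := by
    apply DifferentiableOn.analyticOnNhd _ Metric.isOpen_ball
    intro x hx
    have hx' : ‖x‖ < 1 := by simpa using hx
    obtain ⟨r, hr1, hr2⟩ := exists_between hx'
    have hr0 : 0 ≤ r := (norm_nonneg x).trans hr1.le
    apply DifferentiableAt.differentiableWithinAt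
    have h1 : DifferentiableOn ℂ F (Metric.ball 0 r) := by
      apply Complex.differentiableOn_tsum_of_summable_norm
        (u := fun n => r ^ n) (summable_geometric_of_lt_one hr0 hr2)
      · intro n
        exact ((differentiable_id.pow n).const_mul _).differentiableOn
      · exact Metric.isOpen_ball
      · intro n y hy
        have hy' : ‖y‖ < r := by simpa using hy
        rw [norm_mul, norm_pow, Complex.norm_real, Real.norm_eq_abs]
        calc |a n| * ‖y‖ ^ n ≤ 1 * r ^ n := by
              gcongr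
              exact ha.abs_le n
          _ = _ := one_mul _
    exact h1.differentiableAt (Metric.isOpen_ball.mem_nhds (by simpa using hr1))
  have hreal : ∀ s : ℝ, F (s : ℂ) = (ev a s : ℂ) := by
    intro s
    show ∑' n : ℕ, (a n : ℂ) * (s : ℂ) ^ n = ((∑' n : ℕ, a n * s ^ n : ℝ) : ℂ)
    rw [Complex.ofReal_tsum]
    refine tsum_congr fun n => ?_
    push_cast
    ring
  -- F vanishes frequently near w
  have hfreq : ∃ᶠ y in 𝓝[≠] (w : ℂ), F y = 0 := by
    rw [frequently_nhdsWithin_iff, Metric.nhds_basis_ball.frequently_iff]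
    intro δ hδ
    have hz1 : 0 < 1 - |w| := by linarith
    set t := min (min δ ε) (1 - |w|) / 2 with ht
    have hm : 0 < min (min δ ε) (1 - |w|) := lt_min (lt_min hδ hε) hz1
    have ht0 : 0 < t := by positivity
    have htδ : t < δ := by
      have : min (min δ ε) (1 - |w|) ≤ δ := (min_le_left _ _).trans (min_le_left _ _)
      linarith
    have htε : t < ε := by
      have : min (min δ ε) (1 - |w|) ≤ ε := (min_le_left _ _).trans (min_le_right _ _)
      linarith
    have htz : t < 1 - |w| := by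
      have : min (min δ ε) (1 - |w|) ≤ 1 - |w| := min_le_right _ _
      linarith
    refine ⟨((w + t : ℝ) : ℂ), ?_, ?_, ?_⟩
    · rw [Metric.mem_ball, Complex.dist_eq]
      push_cast
      rw [show (w : ℂ) + t - w = (t : ℂ) by ring, Complex.norm_real, Real.norm_eq_abs,
        abs_of_pos ht0]
      exact htδ
    · rw [hreal, Complex.ofReal_eq_zero]
      apply hcon
      · rw [show w + t - w = t by ring, abs_of_pos ht0]; exact htε
      · calc |w + t| ≤ |w| + |t| := abs_add_le _ _
          _ < 1 := by rw [abs_of_pos ht0]; linarith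
    · simp [ht0.ne']
  have hw' : (w : ℂ) ∈ Metric.ball (0 : ℂ) 1 := by
    simp [Complex.norm_real]
    exact hw
  have hzero := hF.eqOn_zero_of_preconnected_of_frequently_eq_zero
    (convex_ball (0 : ℂ) 1).isPreconnected hw' hfreq
  have h0 : F 0 = 0 := hzero (by simp)
  have h1 : F ((0 : ℝ) : ℂ) = (ev a 0 : ℂ) := hreal 0
  rw [ev_zero ha, Complex.ofReal_zero, h0] at h1
  norm_num at h1

/-- BLOCK 2 (perturbation of one far coefficient). -/
theorem perturb {a : ℕ → ℝ} (ha : IsB a) {z w : ℝ} (hz : |z| < 1) (hw : |w| < 1)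
    (hfz : ev a z = 0) (hfw : ev a w = 0) (hD : dv a z ≠ 0)
    (hw' : dv a w ≠ 0 ∨
      ∀ σ : ℝ, (σ = 1 ∨ σ = -1) → ∀ N₀ : ℕ, ∃ n, N₀ ≤ n ∧ a n * w ^ n ≠ σ * |w| ^ n)
    {ε : ℝ} (hε : 0 < ε) :
    ∃ z' w' : ℝ, |z' - z| < ε ∧ |w' - w| < ε ∧ z' ≠ z ∧ |z'| < 1 ∧ |w'| < 1 ∧
      ∃ b, IsB b ∧ ev b z' = 0 ∧ ev b w' = 0 := by
  have hz0 : z ≠ 0 := by
    rintro rfl
    rw [ev_zero ha] at hfz
    norm_num at hfz
  have hw0 : w ≠ 0 := by
    rintro rfl
    rw [ev_zero ha] at hfw
    norm_num at hfw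
  obtain ⟨u, v, huz, hzv, hu1, hv1, hu, hv, huv⟩ := exists_sign_change ha hz hfz hD hε
  have hune : ev a u ≠ 0 := fun h => by rw [h, zero_mul] at huv; exact lt_irrefl _ huv
  have hvne : ev a v ≠ 0 := fun h => by rw [h, mul_zero] at huv; exact lt_irrefl _ huv
  have hE1 := (eventually_small hu hune).and (eventually_small hv hvne)
  rcases hw' with hw' | hw'
  · obtain ⟨u', v', huz', hzv', hu1', hv1', hu', hv', huv'⟩ :=
      exists_sign_change ha hw hfw hw' hε
    have hune' : ev a u' ≠ 0 := fun h => by rw [h, zero_mul] at huv'; exact lt_irrefl _ huv'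
    have hvne' : ev a v' ≠ 0 := fun h => by rw [h, mul_zero] at huv'; exact lt_irrefl _ huv'
    have hE2 := (eventually_small hu' hune').and (eventually_small hv' hvne')
    obtain ⟨n, ⟨⟨h1, h2⟩, h3, h4⟩, hn⟩ := ((hE1.and hE2).and (eventually_ge_atTop 1)).exists
    obtain ⟨η, hη, hne⟩ : ∃ η : ℝ, (η = 1 ∨ η = -1) ∧ a n ≠ η := by
      rcases ha.2 n with h | h | h
      · exact ⟨1, Or.inl rfl, by rw [h]; norm_num⟩
      · exact ⟨1, Or.inl rfl, by rw [h]; norm_num⟩
      · exact ⟨-1, Or.inr rfl, by rw [h]; norm_num⟩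
    have hb := isB_update ha hn hη hne
    obtain ⟨z', hz', hz'0⟩ := exists_zero_between hb hu hv (sign_stable ha hu hv huv h1 h2 hη)
    obtain ⟨w', hw'', hw'0⟩ :=
      exists_zero_between hb hu' hv' (sign_stable ha hu' hv' huv' h3 h4 hη)
    refine ⟨z', w', uIcc_abs_sub hu1 hv1 hz', uIcc_abs_sub hu1' hv1' hw'', ?_,
      uIcc_abs hu hv hz', uIcc_abs hu' hv' hw'', _, hb, hz'0, hw'0⟩
    rintro rfl
    rw [ev_update ha hz, hfz, zero_add] at hz'0
    rcases mul_eq_zero.1 hz'0 with h | h
    · rcases hη with h' | h' <;> rw [h'] at h <;> norm_num at h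
    · exact hz0 ((pow_eq_zero_iff (by omega)).1 h)
  · obtain ⟨s, hs1, hs, hsne⟩ := exists_ne_zero_near ha hw hε
    obtain ⟨τ, hτ, hτs⟩ : ∃ τ : ℝ, (τ = 1 ∨ τ = -1) ∧ τ * ev a s < 0 := by
      rcases lt_or_gt_of_ne hsne with h | h
      · exact ⟨1, Or.inl rfl, by linarith⟩
      · exact ⟨-1, Or.inr rfl, by linarith⟩
    have hE2 := eventually_small hs hsne
    obtain ⟨M, hM⟩ := eventually_atTop.1 (hE1.and hE2)
    obtain ⟨n, hn, hne⟩ := hw' τ hτ (max M 1)
    have hn1 : 1 ≤ n := (le_max_right M 1).trans hn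
    obtain ⟨⟨h1, h2⟩, h3⟩ := hM n ((le_max_left M 1).trans hn)
    -- the sign
    obtain ⟨η, hη, hηw⟩ : ∃ η : ℝ, (η = 1 ∨ η = -1) ∧ η * w ^ n = τ * |w| ^ n := by
      rcases lt_or_gt_of_ne hw0 with h | h
      · rw [abs_of_neg h, neg_pow]
        rcases neg_one_pow_eq_or ℝ n with h' | h'
        · exact ⟨τ, hτ, by rw [h']; ring⟩
        · refine ⟨-τ, ?_, by rw [h']; ring⟩
          rcases hτ with h'' | h'' <;> rw [h''] <;> simp
      · rw [abs_of_pos h]
        exact ⟨τ, hτ, rfl⟩
    have hne' : a n ≠ η := by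
      intro h
      apply hne
      rw [h, hηw]
    have hb := isB_update ha hn1 hη hne'
    obtain ⟨z', hz', hz'0⟩ := exists_zero_between hb hu hv (sign_stable ha hu hv huv h1 h2 hη)
    have hη' : |η| = 1 := by rcases hη with h | h <;> rw [h] <;> simp
    have hwpos : 0 < |w| ^ n := pow_pos (abs_pos.2 hw0) n
    have hsign : ev (Function.update a n (a n + η)) w *
        ev (Function.update a n (a n + η)) s < 0 := by
      rw [ev_update ha hw, ev_update ha hs, hfw, zero_add, hηw]
      have h5 : |η * s ^ n| < |ev a s| := by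
        rw [abs_mul, hη', one_mul, abs_pow]; exact h3
      have h6 : τ * (ev a s + η * s ^ n) < 0 := by
        rcases hτ with h' | h'
        · rw [h'] at hτs ⊢
          have h7 : ev a s < 0 := by linarith
          rw [abs_of_neg h7, abs_lt] at h5
          linarith [h5.2]
        · rw [h'] at hτs ⊢
          have h7 : 0 < ev a s := by linarith
          rw [abs_of_pos h7, abs_lt] at h5
          linarith [h5.1]
      have h7 := mul_neg_of_neg_of_pos h6 hwpos
      calc τ * |w| ^ n * (ev a s + η * s ^ n) = τ * (ev a s + η * s ^ n) * |w| ^ n := by ring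
        _ < 0 := h7
    obtain ⟨w', hw'', hw'0⟩ := exists_zero_between hb hw hs hsign
    refine ⟨z', w', uIcc_abs_sub hu1 hv1 hz',
      uIcc_abs_sub (by rw [sub_self, abs_zero]; exact hε) hs1 hw'', ?_,
      uIcc_abs hu hv hz', uIcc_abs hw hs hw'', _, hb, hz'0, hw'0⟩
    rintro rfl
    rw [ev_update ha hz, hfz, zero_add] at hz'0
    rcases mul_eq_zero.1 hz'0 with h | h
    · rcases hη with h' | h' <;> rw [h'] at h <;> norm_num at h
    · exact hz0 ((pow_eq_zero_iff (by omega)).1 h)

end Pool.Agent.Iso
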